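import Pool.Agent.H29.RS.Targets
import Pool.Agent.H36.RT.RFM

/-!
# Module RVS: the energy of a root is regularly varying (integer dilations)
-/

set_option autoImplicit false

open Complex MeasureTheory Set Filter Topology

namespace Pool.Agent.H50.RS

open Pool.Agent.H25.DL Pool.Agent.H25.DP Pool.Agent.H25.MZ Pool.Agent.H23.GLH
open Pool.Agent.H29.RT Pool.Agent.H29.RS
open Pool.Agent.H36.RT (zw_prime)

open Classical in
/-- the sum of the coefficients at `p` of the factors of dilation `v` -/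
lemma split (F : Fam) (m v p : ℕ) (hp : p.Prime)
    (hP : ∀ i, ∃ n : ℕ, (F.p i).r = n) (hQ : ∀ j, ∃ n : ℕ, (F.q j).r = n) :
    ∑ l ∈ Finset.univ.filter (fun l => aa (rf F m) l = v),
      (rf F m l).c p * (p : ℂ) ^ (-((rf F m l).τ * I) : ℂ) =
    ((∑ i, (if (F.p i).r = v then (p : ℂ) ^ (-((F.p i).τ * I) : ℂ) *
        ∑ k, (F.p i).L.h k p else 0)) -
      ∑ j, (if (F.q j).r = v then (p : ℂ) ^ (-((F.q j).τ * I) : ℂ) *
        ∑ k, (F.q j).L.h k p else 0)) / m := by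
  rw [Finset.sum_filter, Fintype.sum_sum_type, Fintype.sum_sigma, Fintype.sum_sigma]
  have h1 : ∀ i : F.I, (∑ k : Fin (F.p i).L.n,
      if aa (rf F m) (Sum.inl ⟨i, k⟩) = v then
        (rf F m (Sum.inl ⟨i, k⟩)).c p * (p : ℂ) ^ (-((rf F m (Sum.inl ⟨i, k⟩)).τ * I) : ℂ)
        else 0) =
      (if (F.p i).r = v then (p : ℂ) ^ (-((F.p i).τ * I) : ℂ) *
        ∑ k, (F.p i).L.h k p else 0) * (1 / (m : ℂ)) := by
    intro i
    obtain ⟨n, hn⟩ := hP i
    have ha : ∀ k, aa (rf F m) (Sum.inl ⟨i, k⟩) = n := by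
      intro k
      change ⌊(F.p i).r⌋₊ = n
      rw [hn, Nat.floor_natCast]
    by_cases hv : n = v
    · have hv' : (F.p i).r = v := by rw [hn, hv]
      rw [if_pos hv', Finset.mul_sum, Finset.sum_mul]
      refine Finset.sum_congr rfl fun k _ => ?_
      rw [if_pos ((ha k).trans hv)]
      change (F.p i).L.h k p * ((zw (1 / (m : ℝ)) p : ℝ) : ℂ) *
        (p : ℂ) ^ (-((F.p i).τ * I) : ℂ) = _
      rw [zw_prime _ hp]
      push_cast
      ring
    · have hv' : ¬ (F.p i).r = v := by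
        rw [hn]
        exact fun h => hv (Nat.cast_injective h)
      rw [if_neg hv', zero_mul]
      refine Finset.sum_eq_zero fun k _ => ?_
      rw [if_neg (by rw [ha k]; exact hv)]
  have h2 : ∀ i : F.J, (∑ k : Fin (F.q i).L.n,
      if aa (rf F m) (Sum.inr ⟨i, k⟩) = v then
        (rf F m (Sum.inr ⟨i, k⟩)).c p * (p : ℂ) ^ (-((rf F m (Sum.inr ⟨i, k⟩)).τ * I) : ℂ)
        else 0) =
      (if (F.q i).r = v then (p : ℂ) ^ (-((F.q i).τ * I) : ℂ) *
        ∑ k, (F.q i).L.h k p else 0) * (-(1 / (m : ℂ))) := by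
    intro i
    obtain ⟨n, hn⟩ := hQ i
    have ha : ∀ k, aa (rf F m) (Sum.inr ⟨i, k⟩) = n := by
      intro k
      change ⌊(F.q i).r⌋₊ = n
      rw [hn, Nat.floor_natCast]
    by_cases hv : n = v
    · have hv' : (F.q i).r = v := by rw [hn, hv]
      rw [if_pos hv', Finset.mul_sum, Finset.sum_mul]
      refine Finset.sum_congr rfl fun k _ => ?_
      rw [if_pos ((ha k).trans hv)]
      change (F.q i).L.h k p * ((zw (-(1 / (m : ℝ))) p : ℝ) : ℂ) *
        (p : ℂ) ^ (-((F.q i).τ * I) : ℂ) = _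
      rw [zw_prime _ hp]
      push_cast
      ring
    · have hv' : ¬ (F.q i).r = v := by
        rw [hn]
        exact fun h => hv (Nat.cast_injective h)
      rw [if_neg hv', zero_mul]
      refine Finset.sum_eq_zero fun k _ => ?_
      rw [if_neg (by rw [ha k]; exact hv)]
  rw [Finset.sum_congr rfl fun i _ => h1 i, Finset.sum_congr rfl fun i _ => h2 i,
    ← Finset.sum_mul, ← Finset.sum_mul]
  ring

lemma sq_diff {x y : ℂ} {C N q : ℝ} (hq0 : 0 < q) (hq1 : q ≤ 1) (hC : 0 ≤ C)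
    (hxy : ‖x - y‖ ≤ C * q ^ 2) (hy : ‖y‖ ≤ N * q) :
    |‖x‖ ^ 2 - ‖y‖ ^ 2| ≤ C * (C + 2 * N) * q ^ 3 := by
  have h1 : |‖x‖ - ‖y‖| ≤ C * q ^ 2 := (abs_norm_sub_norm_le x y).trans hxy
  have h2 : ‖x‖ ≤ ‖y‖ + C * q ^ 2 := by
    have := (abs_le.1 h1).2
    linarith
  have h3 : C * q ^ 2 ≤ C * q := mul_le_mul_of_nonneg_left (by nlinarith) hC
  have h4 : ‖x‖ + ‖y‖ ≤ (C + 2 * N) * q := by linarith
  have h5 : ‖x‖ ^ 2 - ‖y‖ ^ 2 = (‖x‖ - ‖y‖) * (‖x‖ + ‖y‖) := by ring
  rw [h5, abs_mul, abs_of_nonneg (by positivity : 0 ≤ ‖x‖ + ‖y‖)]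
  calc |‖x‖ - ‖y‖| * (‖x‖ + ‖y‖) ≤ (C * q ^ 2) * ((C + 2 * N) * q) :=
        mul_le_mul h1 h4 (by positivity) (by positivity)
    _ = C * (C + 2 * N) * q ^ 3 := by ring

theorem pf_RVS (_h1 : T_GRS) (h2 : T_KRV) (h3 : T_EUS) (h4 : T_ACS) (h5 : T_RFM) : T_RVS := by
  classical
  intro F m A a hm hP hQ hM hpos
  have hr : ID (rf F m) := by
    rintro (x | x)
    · obtain ⟨n, hn, -, h⟩ := hP x.1
      exact ⟨n, hn, h⟩
    · obtain ⟨n, hn, -, h⟩ := hQ x.1
      exact ⟨n, hn, h⟩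
  have haA : ∀ l, aa (rf F m) l ≤ A := by
    rintro (x | x)
    · obtain ⟨n, -, hn, h⟩ := hP x.1
      change ⌊(F.p x.1).r⌋₊ ≤ A
      rw [h, Nat.floor_natCast]
      exact hn
    · obtain ⟨n, -, hn, h⟩ := hQ x.1
      change ⌊(F.q x.1).r⌋₊ ≤ A
      rw [h, Nat.floor_natCast]
      exact hn
  obtain ⟨hmul, -⟩ := h5 F m hm
  obtain ⟨ha1, hamul, A₀, C, θ, hC, hθ0, hθ1, haA₀, hpp⟩ := h4 _ (rf F m) hr hmul
  set f := rf F m with hf
  set S : ℕ → ℕ → ℂ := fun v p => ∑ l ∈ Finset.univ.filter (fun l => aa f l = v),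
    (f l).c p * (p : ℂ) ^ (-((f l).τ * I) : ℂ) with hS
  set N : ℝ := ((Fintype.card F.Ix : ℕ) : ℝ) with hN
  have hN0 : 0 ≤ N := Nat.cast_nonneg _
  have hSN : ∀ v p : ℕ, p.Prime → ‖S v p‖ ≤ N := by
    intro v p hp
    refine (norm_sum_le _ _).trans ?_
    have h6 : ∀ l ∈ Finset.univ.filter (fun l => aa f l = v),
        ‖(f l).c p * (p : ℂ) ^ (-((f l).τ * I) : ℂ)‖ ≤ 1 := by
      intro l _
      have h7 : ‖(p : ℂ) ^ (-((f l).τ * I) : ℂ)‖ = 1 := by
        rw [Complex.norm_natCast_cpow_of_pos hp.pos]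
        simp
      rw [norm_mul, h7, mul_one]
      exact (f l).c_le p
    refine (Finset.sum_le_sum h6).trans ?_
    rw [Finset.sum_const, nsmul_eq_mul, mul_one, hN]
    exact_mod_cast Finset.card_le_univ _
  have hS0 : ∀ v p : ℕ, A < v → S v p = 0 := by
    intro v p hv
    refine Finset.sum_eq_zero fun l hl => ?_
    have h6 := (Finset.mem_filter.1 hl).2
    exact absurd (haA l) (by omega)
  have hS0' : ∀ v p : ℕ, A₀ < v → S v p = 0 := by
    intro v p hv
    refine Finset.sum_eq_zero fun l hl => ?_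
    have h6 := (Finset.mem_filter.1 hl).2
    exact absurd (haA₀ l) (by omega)
  set b : ℕ → ℝ := fun k => k * ‖bc f k‖ ^ 2 with hb
  have hb0 : ∀ k, 0 ≤ b k := fun k => by positivity
  have hb1 : b 1 = 1 := by simp [hb, ha1]
  have hbm : ∀ a c : ℕ, Nat.Coprime a c → b (a * c) = b a * b c := by
    intro a c hac
    simp only [hb, hamul a c hac, norm_mul, mul_pow, Nat.cast_mul]
    ring
  have hbk : ∀ k : ℕ, 1 ≤ k → b k / k = ‖bc f k‖ ^ 2 := by
    intro k hk
    have : (k : ℝ) ≠ 0 := by positivity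
    simp only [hb]
    field_simp
  have hbp : ∀ p : ℕ, p.Prime → ∀ v : ℕ, b (p ^ v) / (p : ℝ) ^ v = ‖bc f (p ^ v)‖ ^ 2 := by
    intro p hp v
    rw [← hbk (p ^ v) (Nat.one_le_pow _ _ hp.pos), Nat.cast_pow]
  set A' := max A A₀ with hA'
  set C' : ℝ := C * (C + 2 * N) + C + N ^ 2 with hC'
  have hCC : 0 ≤ C * (C + 2 * N) := by positivity
  set a' : ℕ → ℝ := fun v => if v ≤ A then a v else 0 with ha'
  have key := h3 b A' (fun v p => ‖S v p‖ ^ 2) a' C' θ hb0 hb1 hbm hθ0 hθ1 ?_ ?_ ?_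
  · have hsum : ∑ v ∈ Finset.Icc 1 A', a' v = ∑ v ∈ Finset.Icc 1 A, a v := by
      have h6 : Finset.Icc 1 A ⊆ Finset.Icc 1 A' := Finset.Icc_subset_Icc_right (le_max_left _ _)
      rw [← Finset.sum_subset h6]
      · refine Finset.sum_congr rfl fun v hv => ?_
        simp only [ha']
        rw [if_pos (Finset.mem_Icc.1 hv).2]
      · intro v hv hv'
        simp only [ha']
        rw [if_neg]
        intro h
        exact hv' (Finset.mem_Icc.2 ⟨(Finset.mem_Icc.1 hv).1, h⟩)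
    rw [hsum] at key
    obtain ⟨hs1, hs2⟩ := key
    intro x hx
    have h6 := h2 b _ hpos hb0 (by rw [hb1]; exact one_pos) hs1 hs2 x hx
    have h7 : ∀ y : ℝ, ∑ k ∈ Finset.Icc 1 ⌊y⌋₊, b k / k = E2 f y := by
      intro y
      refine Finset.sum_congr rfl fun k hk => ?_
      exact hbk k (Finset.mem_Icc.1 hk).1
    simpa only [h7] using h6
  · intro p hp v hv1 hv2
    have hp1 : (1 : ℝ) ≤ p := by exact_mod_cast hp.one_lt.le
    have hp0 : (0 : ℝ) < p := by linarith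
    refine ⟨by positivity, ?_, ?_⟩
    · have h6 := hSN v p hp
      have h7 : ‖S v p‖ ^ 2 ≤ N ^ 2 := pow_le_pow_left₀ (norm_nonneg _) h6 2
      simp only [hC']
      linarith
    · simp only [hbp p hp v]
      set q : ℝ := (p : ℝ) ^ (-(1 / 2) : ℝ) with hq
      have hq0 : 0 < q := Real.rpow_pos_of_pos hp0 _
      have hq1 : q ≤ 1 := Real.rpow_le_one_of_one_le_of_nonpos hp1 (by norm_num)
      have hq2 : q ^ 2 = 1 / p := by
        rw [hq, ← Real.rpow_natCast, ← Real.rpow_mul hp0.le]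
        norm_num
        rw [Real.rpow_neg_one]
      have hq3 : q ^ 3 = (p : ℝ) ^ (-(3 / 2) : ℝ) := by
        rw [hq, ← Real.rpow_natCast, ← Real.rpow_mul hp0.le]
        norm_num
      have hsq : ‖S v p‖ ^ 2 / p = ‖(q : ℂ) * S v p‖ ^ 2 := by
        rw [norm_mul, Complex.norm_real, Real.norm_of_nonneg hq0.le, mul_pow, hq2]
        ring
      rw [← hq3]
      by_cases hv3 : v ≤ A₀
      · have h6 := (hpp p hp).1 v hv1 hv3
        have h7 : ‖bc f (p ^ v) - (q : ℂ) * S v p‖ ≤ C * q ^ 2 := by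
          rw [hq2, mul_one_div]
          exact h6
        have h8 : ‖(q : ℂ) * S v p‖ ≤ N * q := by
          rw [norm_mul, Complex.norm_real, Real.norm_of_nonneg hq0.le, mul_comm]
          exact mul_le_mul_of_nonneg_right (hSN v p hp) hq0.le
        rw [hsq]
        refine (sq_diff hq0 hq1 hC.le h7 h8).trans ?_
        refine mul_le_mul_of_nonneg_right ?_ (by positivity)
        have : 0 ≤ N ^ 2 := by positivity
        simp only [hC']
        linarith
      · have h6 := (hpp p hp).2 v (not_le.1 hv3)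
        rw [← hq3] at h6
        have h7 : S v p = 0 := hS0' v p (not_le.1 hv3)
        rw [h7]
        have h8 : ‖bc f (p ^ v)‖ ^ 2 ≤ C * q ^ 3 := by
          refine h6.trans ?_
          have h9 : θ ^ v ≤ 1 := pow_le_one₀ hθ0.le hθ1.le
          have h10 : 0 ≤ C * q ^ 3 := by positivity
          nlinarith
        have h9 : |‖bc f (p ^ v)‖ ^ 2 - ‖(0 : ℂ)‖ ^ 2 / p| = ‖bc f (p ^ v)‖ ^ 2 := by
          rw [norm_zero, zero_pow two_ne_zero, zero_div, sub_zero, abs_of_nonneg (by positivity)]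
        rw [h9]
        refine h8.trans (mul_le_mul_of_nonneg_right ?_ (by positivity))
        have : 0 ≤ N ^ 2 := by positivity
        simp only [hC']
        linarith
  · intro p hp v hv
    rw [hbp p hp v]
    refine ((hpp p hp).2 v ((le_max_right _ _).trans_lt hv)).trans ?_
    have hp0 : (0 : ℝ) < p := by exact_mod_cast hp.pos
    refine mul_le_mul_of_nonneg_right (mul_le_mul_of_nonneg_right ?_
      (Real.rpow_nonneg hp0.le _)) (by positivity)
    have : 0 ≤ N ^ 2 := by positivity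
    simp only [hC']
    linarith
  · intro v hv1 hv2
    by_cases hv : v ≤ A
    · have h6 : a' v = a v := by simp only [ha']; rw [if_pos hv]
      rw [h6]
      intro s hs
      refine (hM v hv1 hv s hs).congr fun L => ?_
      refine tsum_congr fun p => ?_
      congr 1
      have h7 := split F m v p p.2
        (fun i => by obtain ⟨n, -, -, h⟩ := hP i; exact ⟨n, h⟩)
        (fun i => by obtain ⟨n, -, -, h⟩ := hQ i; exact ⟨n, h⟩)
      exact (congrArg (fun z : ℂ => ‖z‖ ^ 2) h7).symm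
    · have h6 : a' v = 0 := by simp only [ha']; rw [if_neg hv]
      rw [h6]
      intro s hs
      have h7 : (fun L : ℝ => ∑' p : Nat.Primes, (fun p => ‖S v p‖ ^ 2) (p : ℕ) *
          ((p : ℝ) ^ (-(1 + s / L) : ℝ) - (p : ℝ) ^ (-(1 + 1 / L) : ℝ))) = fun _ => 0 := by
        funext L
        simp [hS0 v _ (not_le.1 hv)]
      rw [h7]
      simp

end Pool.Agent.H50.RS
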